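import Pool.Agent.Q202.EDRP.Defs
import Pool.Agent.Q202.EDRP.Lemmas

/-!
# The externally definable Ramsey property implies fixed points on type spaces

No restriction on the cardinality of the structure, of its age or of its language is needed.
-/

universe u

namespace Pool.Agent.Results.MP_fdecab_lc.EdrpImpliesFpt

open FirstOrder FirstOrder.Language Q202.EDRP

/-- **Theorem.** Every ultrahomogeneous structure `M` (in a relational language, of any
cardinality and with any age, countable or not) with the externally definable Ramsey property has
the fixed points on type spaces property. -/
theorem result (L : Language.{0, 0}) [L.IsRelational] (M : Type u) [L.Structure M]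
    (hM : L.IsUltrahomogeneous M) (hE : Q202.EDRP.EDRP L M) : FPT L M :=
  fpt_of_edrp hM hE

end Pool.Agent.Results.MP_fdecab_lc.EdrpImpliesFpt
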